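import Mathlib

/-!
# Upper bound for the number of bent functions (MP_bb510f_co): definitions

`S` is a finite abelian group, `e : ι → S` a family of generators (for bent functions `S = ℤ^ι / Λ`).
The noise is `γ = (γ x)`, a sum of `K` independent bits at every coordinate, and the observation is
the syndrome `∑ x, γ x • e x`.
-/

namespace Pool.Agent.BF

open Finset

/-- The average over a finite type. -/
noncomputable def Ex {α : Type} [Fintype α] (F : α → ℝ) : ℝ := (∑ a, F a) / (Fintype.card α : ℝ)

/-- The sign `±1` of a bit. -/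
def bt (b : Bool) : ℝ := if b then 1 else -1

/-- `K` bits at every coordinate. -/
abbrev Om (ι : Type) (K : ℕ) : Type := ι × Fin K → Bool

/-- The binomial weights `C(n,j)/2^n`. -/
noncomputable def bw (n j : ℕ) : ℝ := (n.choose j : ℝ) / 2 ^ n

/-- The Shannon entropy (nats). -/
noncomputable def ent {S : Type} [Fintype S] (ν : S → ℝ) : ℝ := ∑ g, Real.negMulLog (ν g)

/-- `½ ∑ (ν g - ν (g-a))² / (ν g + ν (g-a))`: information about one bit with step `a`. -/
noncomputable def dd {S : Type} [AddCommGroup S] [Fintype S] (ν : S → ℝ) (a : S) : ℝ :=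
  ∑ g, (ν g - ν (g - a)) ^ 2 / (ν g + ν (g - a)) / 2

variable {ι : Type} [Fintype ι] [DecidableEq ι] {S : Type} [AddCommGroup S] [Fintype S]
  [DecidableEq S]

/-- The number of ones at the coordinate `x`. -/
def gam {K : ℕ} (ω : Om ι K) (x : ι) : ℕ := (univ.filter fun k : Fin K => ω (x, k) = true).card

/-- The syndrome of the noise. -/
def sg (e : ι → S) {K : ℕ} (ω : Om ι K) : S := ∑ x, gam ω x • e x

/-- The law of the syndrome with `n x` bits at the coordinate `x`. -/
noncomputable def mu (e : ι → S) (n : ι → ℕ) (g : S) : ℝ :=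
  ∑ v ∈ Fintype.piFinset (fun x => range (n x + 1)),
    if ∑ x, v x • e x = g then ∏ x, bw (n x) (v x) else 0

/-- `K` bits at every coordinate, but only `K - 1` at `x`. -/
def mn (K : ℕ) (x : ι) : ι → ℕ := Function.update (fun _ => K) x (K - 1)

/-- The quality of the estimation of the noise at `x` with `K` bits per coordinate:
`w = E (E[T | syndrome])² / K ∈ [0,1]`, `T` the sum of the `K` signs at `x`. -/
noncomputable def ww (e : ι → S) (K : ℕ) (x : ι) : ℝ := K * dd (mu e (mn K x)) (e x)

/-- The conditional expectation of the sign of one bit at `x` given the syndrome. -/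
noncomputable def hh (e : ι → S) (K : ℕ) (x : ι) (g : S) : ℝ :=
  (mu e (mn K x) (g - e x) - mu e (mn K x) g) / (mu e (mn K x) (g - e x) + mu e (mn K x) g)

/-- Every `y ≠ x` is separated from `x` by a sign symmetry of `(S, e)`. -/
def SgnSym (e : ι → S) (x : ι) : Prop := ∀ y, y ≠ x → ∃ (ψ : S ≃+ S) (ε : ι → Bool),
  ε x = false ∧ ε y = true ∧ ∀ z, ψ (e z) = if ε z then -e z else e z

/-- Transitivity. -/
def Trans (e : ι → S) : Prop := ∀ x y, ∃ (φ : S ≃+ S) (π : Equiv.Perm ι), π x = y ∧
  ∀ z, φ (e z) = e (π z)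

/-- Generation (with coefficients in `ℕ`). -/
def Gen (e : ι → S) : Prop := ∀ g : S, ∃ r : ι → ℕ, ∑ x, r x • e x = g

/-- Glue `K` bits and one further bit per coordinate. -/
def glue {K : ℕ} (ω : Om ι K) (η : ι → Bool) : Om ι (K + 1) :=
  fun j => Fin.lastCases (motive := fun _ => Bool) (η j.1) (fun k => ω (j.1, k)) j.2

end Pool.Agent.BF
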